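import Mathlib

set_option autoImplicit false

namespace Pool.Agent.Results.MP_4efd57_nt.Counter

open Finset

/-- the character modulo four evaluated at the odd part -/
noncomputable def ff (n : ℕ) : ℂ := ((ZMod.χ₄ (ordCompl[2] n : ℕ) : ℤ) : ℂ)

theorem ff_mul (m n : ℕ) : ff (m * n) = ff m * ff n := by
  unfold ff
  rw [Nat.ordCompl_mul, Nat.cast_mul, map_mul, Int.cast_mul]

theorem ff_norm (n : ℕ) (hn : 1 ≤ n) : ‖ff n‖ = 1 := by
  have h := Nat.not_dvd_ordCompl Nat.prime_two (show n ≠ 0 by omega)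
  unfold ff
  generalize ordCompl[2] n = m at h
  rw [ZMod.χ₄_nat_eq_if_mod_four, if_neg (by omega)]
  split_ifs <;> simp

theorem ff_odd (m : ℕ) : ff (2 * m + 1) + ff (2 * m + 3) = 0 := by
  have e : ∀ k : ℕ, ¬ 2 ∣ k → ordCompl[2] k = k := fun k hk => by
    rw [Nat.factorization_eq_zero_of_not_dvd hk]; simp
  unfold ff
  rw [e _ (by omega), e _ (by omega), ZMod.χ₄_nat_eq_if_mod_four, ZMod.χ₄_nat_eq_if_mod_four,
    if_neg (by omega), if_neg (show ¬ (2 * m + 3) % 2 = 0 by omega)]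
  by_cases h : (2 * m + 1) % 4 = 1
  · rw [if_pos h, if_neg (by omega)]; simp
  · rw [if_neg h, if_pos (by omega)]; simp

theorem even_sum (m : ℕ) : ∑ k ∈ Icc 1 (2 * m), ff k * ff (k + 1) = 0 := by
  induction m with
  | zero => simp
  | succ m ih =>
    rw [show 2 * (m + 1) = 2 * m + 1 + 1 by ring, sum_Icc_succ_top (by omega),
      sum_Icc_succ_top (by omega), ih]
    linear_combination ff (2 * m + 1 + 1) * ff_odd m

/-- A completely multiplicative unimodular `f` whose correlated sums along all homogeneous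
progressions are bounded by `1`. -/
theorem result : ∃ f : ℕ → ℂ, (∀ n, 1 ≤ n → ‖f n‖ = 1) ∧ (∀ m n, f (m * n) = f m * f n) ∧
    ∀ d n : ℕ, 1 ≤ d → 1 ≤ n → ‖∑ k ∈ Icc 1 n, f (k * d) * f (k * d + d)‖ ≤ 1 := by
  refine ⟨ff, ff_norm, ff_mul, fun d n hd _ => ?_⟩
  have e : ∑ k ∈ Icc 1 n, ff (k * d) * ff (k * d + d) =
      ff d * ff d * ∑ k ∈ Icc 1 n, ff k * ff (k + 1) := by
    rw [mul_sum]
    refine sum_congr rfl fun k _ => ?_
    rw [show k * d + d = (k + 1) * d by ring, ff_mul, ff_mul]; ring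
  rw [e, norm_mul, norm_mul, ff_norm d hd, one_mul, one_mul]
  obtain ⟨m, rfl | rfl⟩ := Nat.even_or_odd' n
  · rw [even_sum]; simp
  · rw [sum_Icc_succ_top (by omega), even_sum, zero_add, norm_mul, ff_norm _ (by omega),
      ff_norm _ (by omega), one_mul]

end Pool.Agent.Results.MP_4efd57_nt.Counter
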